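import Pool.Agent.Lib.MP_f017c9_lc_BT.Defs

/-!
# Random k-SAT: myopic backtracking search (definitions)
-/

namespace Pool.Agent.KS

open Finset

variable {n k M : ℕ}

/-- `F'` has the same variables as `F` in all clauses, and the same signs at all occurrences of the
variables in `W` and in all clauses with index in `Q`. -/
def Agree (F F' : Formula n k M) (W : Finset (Fin n)) (Q : Finset (Fin M)) : Prop :=
  ∀ j, (F' j).1 = (F j).1 ∧ ∀ i, ((F j).1 i ∈ W ∨ j ∈ Q) → (F' j).2 i = (F j).2 i

/-- The nodes of the full search tree of the branching rule `rule` (both values). -/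
inductive Node (rule : PA n → Lit n) : PA n → Prop
  | root : Node rule (fun _ => none)
  | child (ρ : PA n) (v : Bool) (h : Node rule ρ) (hx : ρ (rule ρ).1 = none) :
      Node rule (Function.update ρ (rule ρ).1 (some v))

/-- The branching rule sees only a part of the formula: at every node `ρ` of the search tree of `F`
there are a set `look F ρ` of variables (all assigned variables and at most `a` other variables)
and a set `read F ρ` of at most `b` clauses, both increasing along the branches, such that the
choice of the rule at `ρ` (and these two sets) depend only on the variables of all clauses, the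
signs of all occurrences of the variables in `look F ρ` and the signs in the clauses in
`read F ρ`. -/
def Myopic (rule : Formula n k M → PA n → Lit n) (a b : ℝ) : Prop :=
  ∃ (look : Formula n k M → PA n → Finset (Fin n)) (read : Formula n k M → PA n → Finset (Fin M)),
    ∀ F ρ, Node (rule F) ρ →
      (∀ x, ρ x ≠ none → x ∈ look F ρ) ∧
      ((#{x ∈ look F ρ | ρ x = none} : ℕ) : ℝ) ≤ a ∧ ((read F ρ).card : ℝ) ≤ b ∧
      (∀ F', Agree F F' (look F ρ) (read F ρ) →
        rule F' ρ = rule F ρ ∧ look F' ρ = look F ρ ∧ read F' ρ = read F ρ) ∧
      ∀ v : Bool, ρ (rule F ρ).1 = none →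
        look F ρ ⊆ look F (Function.update ρ (rule F ρ).1 (some v)) ∧
        read F ρ ⊆ read F (Function.update ρ (rule F ρ).1 (some v))

end Pool.Agent.KS
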