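import Pool.Agent.Lib.MP_f017c9_lc_MY.Jpt

/-!
# Random k-SAT: myopic search, the path depends only on what has been looked at
-/

namespace Pool.Agent.KS

open Finset

variable {n k M : ℕ}

/-- `look` and `read` witness that the rule is myopic -/
def MyoWit (rule : Formula n k M → PA n → Lit n) (a b : ℝ)
    (look : Formula n k M → PA n → Finset (Fin n))
    (read : Formula n k M → PA n → Finset (Fin M)) : Prop :=
  ∀ F ρ, Node (rule F) ρ →
      (∀ x, ρ x ≠ none → x ∈ look F ρ) ∧
      ((#{x ∈ look F ρ | ρ x = none} : ℕ) : ℝ) ≤ a ∧ ((read F ρ).card : ℝ) ≤ b ∧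
      (∀ F', Agree F F' (look F ρ) (read F ρ) →
        rule F' ρ = rule F ρ ∧ look F' ρ = look F ρ ∧ read F' ρ = read F ρ) ∧
      ∀ v : Bool, ρ (rule F ρ).1 = none →
        look F ρ ⊆ look F (Function.update ρ (rule F ρ).1 (some v)) ∧
        read F ρ ⊆ read F (Function.update ρ (rule F ρ).1 (some v))

theorem agree_mono {F F' : Formula n k M} {W W' : Finset (Fin n)} {Q Q' : Finset (Fin M)}
    (hW : W ⊆ W') (hQ : Q ⊆ Q') (h : Agree F F' W' Q') : Agree F F' W Q := by
  exact fun j => ⟨(h j).1, fun i hi => (h j).2 i (hi.imp (fun x => hW x) fun x => hQ x)⟩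

private theorem jnode_succ_eq (rule : PA n → Lit n) (J : Asg n) {t : ℕ} (h : t < n) :
    jnode rule J (t + 1) = Function.update (jnode rule J t) (rule (jnode rule J t)).1
      (some (xor (rule (jnode rule J t)).2 (J ⟨t, h⟩))) := by
  rw [jnode, dif_pos h]
  rfl

/-- the sets increase along the path -/
theorem look_mono {rule : Formula n k M → PA n → Lit n} {a b : ℝ}
    {look : Formula n k M → PA n → Finset (Fin n)}
    {read : Formula n k M → PA n → Finset (Fin M)} (hw : MyoWit rule a b look read)
    (F : Formula n k M) (J : Asg n) (t : ℕ) (ht : t ≤ n) (hok : okPath (rule F) J t) :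
    ∀ s ≤ t, look F (jnode (rule F) J s) ⊆ look F (jnode (rule F) J t) ∧
      read F (jnode (rule F) J s) ⊆ read F (jnode (rule F) J t) := by
  intro s hs
  have key : ∀ d, s + d ≤ t → look F (jnode (rule F) J s) ⊆ look F (jnode (rule F) J (s + d)) ∧
      read F (jnode (rule F) J s) ⊆ read F (jnode (rule F) J (s + d)) := by
    intro d
    induction d with
    | zero => exact fun _ => ⟨Subset.refl _, Subset.refl _⟩
    | succ d ih =>
      intro hd
      obtain ⟨h1, h2⟩ := ih (by omega)
      have hlt : s + d < t := by omega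
      have hn : s + d < n := by omega
      obtain ⟨-, -, -, -, h3⟩ := hw F _ (okPath_node (rule F) J t ht hok (s + d) hlt.le)
      obtain ⟨h4, h5⟩ := h3 (xor (rule F (jnode (rule F) J (s + d))).2 (J ⟨s + d, hn⟩))
        (hok (s + d) hlt)
      rw [← add_assoc, jnode_succ_eq (rule F) J hn]
      exact ⟨h1.trans h4, h2.trans h5⟩
  have := key (t - s) (by omega)
  rwa [Nat.add_sub_cancel' hs] at this

theorem path_agree {rule : Formula n k M → PA n → Lit n} {a b : ℝ}
    {look : Formula n k M → PA n → Finset (Fin n)}
    {read : Formula n k M → PA n → Finset (Fin M)} (hw : MyoWit rule a b look read)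
    (F F' : Formula n k M) (J : Asg n) (t : ℕ) (ht : t ≤ n) (hok : okPath (rule F) J t)
    (hA : Agree F F' (look F (jnode (rule F) J t)) (read F (jnode (rule F) J t))) :
    jnode (rule F') J t = jnode (rule F) J t ∧ okPath (rule F') J t ∧
      look F' (jnode (rule F') J t) = look F (jnode (rule F) J t) ∧
      read F' (jnode (rule F') J t) = read F (jnode (rule F) J t) := by
  have hrule : ∀ s ≤ t, rule F' (jnode (rule F) J s) = rule F (jnode (rule F) J s) ∧
      look F' (jnode (rule F) J s) = look F (jnode (rule F) J s) ∧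
      read F' (jnode (rule F) J s) = read F (jnode (rule F) J s) := by
    intro s hs
    obtain ⟨-, -, -, h4, -⟩ := hw F _ (okPath_node (rule F) J t ht hok s hs)
    obtain ⟨h1, h2⟩ := look_mono hw F J t ht hok s hs
    exact h4 F' (agree_mono h1 h2 hA)
  have hnode : ∀ s, s ≤ t → jnode (rule F') J s = jnode (rule F) J s := by
    intro s
    induction s with
    | zero => exact fun _ => rfl
    | succ s ih =>
      intro hs
      have hn : s < n := by omega
      rw [jnode_succ_eq (rule F') J hn, jnode_succ_eq (rule F) J hn, ih (by omega),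
        (hrule s (by omega)).1]
  refine ⟨hnode t le_rfl, fun s hs => ?_, ?_, ?_⟩
  · rw [hnode s hs.le, (hrule s hs.le).1]
    exact hok s hs
  · rw [hnode t le_rfl]
    exact (hrule t le_rfl).2.1
  · rw [hnode t le_rfl]
    exact (hrule t le_rfl).2.2

/-- the number of the variables which have not been looked at -/
theorem nf_restr_look {rule : Formula n k M → PA n → Lit n} {a b : ℝ}
    {look : Formula n k M → PA n → Finset (Fin n)}
    {read : Formula n k M → PA n → Finset (Fin M)} (hw : MyoWit rule a b look read)
    (F : Formula n k M) (J : Asg n) (t : ℕ) (ht : t ≤ n) (hok : okPath (rule F) J t)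
    (σ : Asg n) :
    (n : ℝ) - t - a ≤ nf (restr σ (look F (jnode (rule F) J t))) := by
  obtain ⟨-, h2, -, -, -⟩ := hw F _ (okPath_node (rule F) J t ht hok t le_rfl)
  have h3 := okPath_nf (rule F) J t ht hok t le_rfl
  set ρ := jnode (rule F) J t with hρ
  set W := look F ρ with hW
  have e1 : nf (restr σ W) = #{x | x ∉ W} := by
    unfold nf restr
    congr 1
    ext x
    simp only [mem_filter, mem_univ, true_and]
    split_ifs with h <;> simp [h]
  have e2 : #{x | x ∉ W} + W.card = n := by
    have h4 := card_filter_add_card_filter_not (s := (univ : Finset (Fin n))) (fun x => x ∈ W)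
    have h5 : #{x | x ∈ W} = W.card := by
      congr 1
      ext x
      simp
    rw [h5, card_univ, Fintype.card_fin] at h4
    omega
  have e3 : W.card ≤ #{x ∈ W | ρ x = none} + t := by
    have h4 := card_filter_add_card_filter_not (s := W) (fun x => ρ x = none)
    have h5 := card_filter_add_card_filter_not (s := (univ : Finset (Fin n)))
      (fun x => ρ x = none)
    have h6 : #{x ∈ W | ¬ ρ x = none} ≤ #{x | ¬ ρ x = none} :=
      card_le_card (filter_subset_filter _ (subset_univ _))
    rw [card_univ, Fintype.card_fin] at h5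
    unfold nf at h3
    omega
  have e4 : (W.card : ℝ) ≤ (#{x ∈ W | ρ x = none} : ℕ) + (t : ℝ) := by exact_mod_cast e3
  have e5 : ((#{x | x ∉ W} : ℕ) : ℝ) + (W.card : ℝ) = n := by exact_mod_cast e2
  rw [e1]
  linarith

end Pool.Agent.KS
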