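import Pool.Agent.Lib.MP_f017c9_lc_MY.Wt

/-!
# Random k-SAT: myopic search, the path with a given correction pattern
-/

namespace Pool.Agent.KS

open Finset

variable {n k M : ℕ} {F : Formula n k M} {ρ : PA n} {σ : Asg n} {m : ℕ}

private theorem Jpt_succ (rule : PA n → Lit n) (J : Asg n) {t : ℕ} (h : t < n) :
    jnode rule J (t + 1) = upd (jnode rule J t) (rule (jnode rule J t)).1
      (xor (rule (jnode rule J t)).2 (J ⟨t, h⟩)) := by
  simp only [jnode]
  rw [dif_pos h]

private theorem Jpt_congr (rule : PA n → Lit n) (J J' : Asg n) (t : ℕ)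
    (h : ∀ s : Fin n, (s : ℕ) < t → J s = J' s) : ∀ s ≤ t, jnode rule J s = jnode rule J' s := by
  intro s
  induction s with
  | zero => exact fun _ => rfl
  | succ s ih =>
    intro hs
    have h1 := ih (by omega)
    by_cases h2 : s < n
    · rw [Jpt_succ rule J h2, Jpt_succ rule J' h2, h1, h ⟨s, h2⟩ (by show s < t; omega)]
    · simp only [jnode]
      rw [dif_neg h2, dif_neg h2, h1]

private theorem Jpt_okmono {rule : PA n → Lit n} {J : Asg n} {t t' : ℕ} (ht : t' ≤ t)
    (h : okPath rule J t) : okPath rule J t' := fun s hs => h s (by omega)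

theorem okPath_nf (rule : PA n → Lit n) (J : Asg n) (t : ℕ) (ht : t ≤ n)
    (h : okPath rule J t) : ∀ s ≤ t, s + nf (jnode rule J s) = n := by
  intro s
  induction s with
  | zero =>
    intro _
    show 0 + nf (fun _ => none : PA n) = n
    rw [nf_none, zero_add]
  | succ s ih =>
    intro hs
    have h1 := ih (by omega)
    have h2 := nf_upd (h s (by omega))
      (xor (rule (jnode rule J s)).2 (J ⟨s, by omega⟩))
    rw [Jpt_succ rule J (show s < n by omega)]
    omega

theorem okPath_node (rule : PA n → Lit n) (J : Asg n) (t : ℕ) (ht : t ≤ n)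
    (h : okPath rule J t) : ∀ s ≤ t, Node rule (jnode rule J s) := by
  intro s
  induction s with
  | zero => exact fun _ => Node.root
  | succ s ih =>
    intro hs
    rw [Jpt_succ rule J (show s < n by omega)]
    exact Node.child _ _ (ih (by omega)) (h s (by omega))

theorem okPath_pext (rule : PA n → Lit n) (J : Asg n) (t : ℕ) (ht : t ≤ n)
    (h : okPath rule J t) : ∀ s ≤ t, PExt (jnode rule J s) (jnode rule J t) := by
  intro s hs
  have key : ∀ t', s ≤ t' → t' ≤ t → PExt (jnode rule J s) (jnode rule J t') := by
    intro t' hst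
    induction t', hst using Nat.le_induction with
    | base => exact fun _ => pext_refl _
    | succ t' hst ih =>
      intro h1
      refine pext_trans (ih (by omega)) ?_
      rw [Jpt_succ rule J (show t' < n by omega)]
      exact pext_upd (h t' (by omega)) _
  exact key t hs le_rfl

/-- every reached node lies on the path of a correction pattern with `m` corrections -/
theorem reach_jnode (T : ℝ) (rule : PA n → Lit n) (h : Reach F T rule ρ m) :
    ∃ (t : ℕ) (J : Asg n), t ≤ n ∧ ρ = jnode rule J t ∧ okPath rule J t ∧
      hammingDist (fun _ => false) J = m ∧ ∀ s : Fin n, t ≤ s → J s = false := by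
  induction h with
  | root =>
    exact ⟨0, fun _ => false, Nat.zero_le _, rfl, fun s hs => absurd hs (by omega),
      hammingDist_self _, fun _ _ => rfl⟩
  | first ρ m h hx ih =>
    obtain ⟨t, J, h1, h2, h3, h4, h5⟩ := ih
    have h6 := okPath_nf rule J t h1 h3 t le_rfl
    rw [← h2] at h6
    have h7 := nf_upd hx true
    have htn : t < n := by omega
    refine ⟨t + 1, J, htn, ?_, ?_, h4, fun s hs => h5 s (by omega)⟩
    · rw [Jpt_succ rule J htn, ← h2, h5 ⟨t, htn⟩ le_rfl, Bool.xor_false]
      rfl
    · intro s hs
      rcases Nat.lt_succ_iff_lt_or_eq.1 hs with h8 | h8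
      · exact h3 s h8
      · rw [h8, ← h2]
        exact hx
  | second ρ m h hx hr ih =>
    obtain ⟨t, J, h1, h2, h3, h4, h5⟩ := ih
    have h6 := okPath_nf rule J t h1 h3 t le_rfl
    rw [← h2] at h6
    have h7 := nf_upd hx true
    have htn : t < n := by omega
    have hc := Jpt_congr rule J (Function.update J ⟨t, htn⟩ true) t (by
      intro s hs
      rw [Function.update_of_ne]
      rintro rfl
      exact absurd hs (lt_irrefl _))
    refine ⟨t + 1, Function.update J ⟨t, htn⟩ true, htn, ?_, ?_, ?_, ?_⟩
    · rw [Jpt_succ rule _ htn, ← hc t le_rfl, ← h2, Function.update_self, Bool.xor_true]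
      rfl
    · intro s hs
      rcases Nat.lt_succ_iff_lt_or_eq.1 hs with h8 | h8
      · rw [← hc s h8.le]
        exact h3 s h8
      · rw [h8, ← hc t le_rfl, ← h2]
        exact hx
    · rw [← h4]
      unfold hammingDist
      have hnot : (⟨t, htn⟩ : Fin n) ∉ (univ.filter fun i => false ≠ J i) := by
        rw [mem_filter]
        rintro ⟨_, h8⟩
        exact h8 (h5 ⟨t, htn⟩ le_rfl).symm
      rw [← card_insert_of_notMem hnot]
      congr 1
      ext i
      simp only [mem_filter, mem_univ, true_and, mem_insert]
      by_cases hi : i = ⟨t, htn⟩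
      · rw [hi, Function.update_self]
        simp
      · rw [Function.update_of_ne hi]
        simp [hi]
    · intro s hs
      rw [Function.update_of_ne]
      · exact h5 s (by omega)
      · rintro rfl
        have : t + 1 ≤ t := hs
        omega

theorem findsAt_jnode (T : ℝ) (rule : PA n → Lit n) (h : FindsAt F T rule σ m) :
    ∃ J : Asg n, hammingDist (fun _ => false) J = m ∧
      ∀ t ≤ n, okPath rule J t ∧ Ext (jnode rule J t) σ := by
  obtain ⟨t, J, h1, h2, h3, h4, _⟩ := reach_jnode T rule h.1
  have h6 := okPath_nf rule J t h1 h3 t le_rfl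
  rw [← h2, nf_total] at h6
  have htn : t = n := by omega
  subst htn
  refine ⟨J, h4, fun t' ht' => ⟨Jpt_okmono ht' h3, fun x b hb => ?_⟩⟩
  have h7 := okPath_pext rule J t le_rfl h3 t' ht' x b hb
  rw [← h2] at h7
  exact Option.some.inj h7

/-- the number of the assignments extending a partial assignment -/
theorem card_ext (ρ : PA n) :
    ∃ S : Finset (Asg n), (∀ σ, σ ∈ S ↔ Ext ρ σ) ∧ S.card = 2 ^ nf ρ := by
  refine ⟨Fintype.piFinset fun x => if ρ x = none then univ else {(ρ x).getD false}, ?_, ?_⟩
  · intro σ
    rw [Fintype.mem_piFinset]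
    constructor
    · intro h x b hb
      have h1 := h x
      rw [hb, if_neg (by simp), mem_singleton] at h1
      exact h1
    · intro h x
      cases hx : ρ x with
      | none => simp
      | some b =>
        rw [if_neg (by simp), mem_singleton]
        exact h x b hx
  · rw [Fintype.card_piFinset]
    have h1 : ∀ x : Fin n, (if ρ x = none then (univ : Finset Bool) else
        {(ρ x).getD false}).card = if ρ x = none then 2 else 1 := by
      intro x
      split_ifs <;> simp
    rw [Finset.prod_congr rfl fun x _ => h1 x, Finset.prod_ite]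
    simp [nf]

end Pool.Agent.KS
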