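import Pool.Agent.Lib.MP_f017c9_lc.Numeric

/-!
# Random k-SAT: myopic search, the numerical facts
-/

namespace Pool.Agent.KS

private theorem nmm_exp_neg_le {y : ℝ} (hy : 0 < y) : Real.exp (-y) ≤ 1 / y := by
  rw [Real.exp_neg, ← one_div]
  apply one_div_le_one_div_of_le hy
  have := Real.add_one_le_exp y
  linarith

private theorem nmm_two_pow (J : ℕ) (c : ℝ) (h : (J : ℝ) ≤ c) :
    (2 : ℝ) ^ J ≤ Real.exp (0.6932 * c) := by
  have h2 := Real.log_two_lt_d9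
  have h3 : (2 : ℝ) ^ J = Real.exp (J * Real.log 2) := by
    rw [Real.exp_nat_mul, Real.exp_log (by norm_num)]
  rw [h3]
  apply Real.exp_le_exp.mpr
  have h4 : (0 : ℝ) ≤ J := Nat.cast_nonneg J
  have h5 : (J : ℝ) * Real.log 2 ≤ J * 0.6932 := mul_le_mul_of_nonneg_left (by linarith) h4
  linarith

private theorem nmm_half_pow (J : ℕ) (c : ℝ) (hc : 0 ≤ c) (h : c - 1 ≤ J) :
    ((1 : ℝ) / 2) ^ J ≤ 2 * Real.exp (-(0.69 * c)) := by
  have h2 := Real.log_two_gt_d9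
  have h3 : ((1 : ℝ) / 2) ^ J = Real.exp (-(J * Real.log 2)) := by
    rw [Real.exp_neg, Real.exp_nat_mul, Real.exp_log (by norm_num), one_div, inv_pow]
  have h4 : 2 * Real.exp (-(0.69 * c)) = Real.exp (Real.log 2 + -(0.69 * c)) := by
    rw [Real.exp_add, Real.exp_log (by norm_num)]
  rw [h3, h4]
  apply Real.exp_le_exp.mpr
  have h5 : (c - 1) * Real.log 2 ≤ J * Real.log 2 :=
    mul_le_mul_of_nonneg_right h (by linarith)
  have h6 : c * 0.69 ≤ c * Real.log 2 := mul_le_mul_of_nonneg_left (by linarith) hc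
  linarith

private theorem nmm_third (u v : ℝ) (h : u + 2 ≤ v) :
    Real.exp (-v) ≤ 1 / 3 * Real.exp (-u) := by
  have h1 : Real.exp (-u) = Real.exp (v - u) * Real.exp (-v) := by
    rw [← Real.exp_add]
    congr 1
    ring
  have h2 := Real.add_one_le_exp (v - u)
  have h3 := Real.exp_pos (-v)
  rw [h1]
  nlinarith

private theorem nmm_emb (ε : ℝ) (hε : 0 < ε) (hε1 : ε ≤ 1) (k n f : ℕ) (hkn : k ≤ n)
    (hn : 10 ^ 4 * (k : ℝ) ≤ ε * n) (hf : ε * n / 12 ≤ f) (hfn : f ≤ n) :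
    ((n : ℝ) - f / 2) ^ k ≤ Real.exp (-(ε * k / 25)) * ((n - k : ℕ) : ℝ) ^ k := by
  have hn0 : (0 : ℝ) ≤ n := Nat.cast_nonneg n
  have hfn' : (f : ℝ) ≤ n := by exact_mod_cast hfn
  have h1 : Real.exp (-(ε * k / 25)) = Real.exp (-(ε / 25)) ^ k := by
    rw [← Real.exp_nat_mul]
    congr 1
    ring
  rw [h1, ← mul_pow]
  refine pow_le_pow_left₀ (by linarith) ?_ k
  rw [Nat.cast_sub hkn]
  have h2 := Real.add_one_le_exp (-(ε / 25))
  have h3 : (n : ℝ) * (1 - ε / 10 ^ 4) ≤ n - k := by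
    have : (k : ℝ) ≤ ε * n / 10 ^ 4 := by linarith
    nlinarith
  have h4 : (1 - ε / 25) * (n * (1 - ε / 10 ^ 4)) ≤ Real.exp (-(ε / 25)) * (n - k) :=
    mul_le_mul (by linarith) h3 (mul_nonneg hn0 (by linarith)) (Real.exp_pos _).le
  have h5 : (n : ℝ) - f / 2 ≤ n * (1 - ε / 24) := by nlinarith
  have h6 : (n : ℝ) * (1 - ε / 24) ≤ (1 - ε / 25) * (n * (1 - ε / 10 ^ 4)) := by
    have h7 : (1 - ε / 24 : ℝ) ≤ (1 - ε / 25) * (1 - ε / 10 ^ 4) := by nlinarith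
    have h8 := mul_le_mul_of_nonneg_left h7 hn0
    linarith
  linarith

private theorem nmm_sum (ε : ℝ) (hε : 0 < ε) (hε1 : ε ≤ 1) (n V m : ℕ)
    (hn : 240 ≤ ε * n) (hV : (V : ℝ) ≤ ε * n / 8) (hm : 12 / ε ≤ m) (E : ℝ) (hE : ε * n ≤ E) :
    Real.exp (-(3 / 10 * n)) + 3 ^ n * Real.exp (-(m * E / 4)) +
      Real.exp (ε * n / 4) * (2 ^ V * Real.exp (-(E / 2))) ≤ Real.exp (-(ε * n / 8)) := by
  have hn0 : (0 : ℝ) ≤ n := Nat.cast_nonneg n
  have hεn : ε * n ≤ n := by nlinarith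
  have h1 : Real.exp (-(3 / 10 * n : ℝ)) ≤ 1 / 3 * Real.exp (-(ε * n / 8)) :=
    nmm_third _ _ (by linarith)
  have h2 : (3 : ℝ) ^ n * Real.exp (-(m * E / 4)) ≤ 1 / 3 * Real.exp (-(ε * n / 8)) := by
    have h3 : (3 : ℝ) ^ n ≤ Real.exp (2 * n) := by
      have h4 : (3 : ℝ) ≤ Real.exp 2 := by
        have := Real.add_one_le_exp (2 : ℝ)
        linarith
      calc (3 : ℝ) ^ n ≤ Real.exp 2 ^ n := pow_le_pow_left₀ (by norm_num) h4 n
        _ = Real.exp (2 * n) := by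
          rw [← Real.exp_nat_mul]
          congr 1
          ring
    have h5 : 3 * (n : ℝ) ≤ m * E / 4 := by
      have h6 : 12 / ε * (ε * n) ≤ m * E :=
        mul_le_mul hm hE (by positivity) (Nat.cast_nonneg m)
      have h7 : 12 / ε * (ε * n) = 12 * (n : ℝ) := by
        field_simp
      linarith
    have h8 : Real.exp (-(m * E / 4)) ≤ Real.exp (-(3 * n)) := Real.exp_le_exp.mpr (by linarith)
    calc (3 : ℝ) ^ n * Real.exp (-(m * E / 4)) ≤ Real.exp (2 * n) * Real.exp (-(3 * n)) :=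
          mul_le_mul h3 h8 (Real.exp_pos _).le (Real.exp_pos _).le
      _ = Real.exp (-n) := by
          rw [← Real.exp_add]
          congr 1
          ring
      _ ≤ _ := nmm_third _ _ (by linarith)
  have h3 : Real.exp (ε * n / 4) * (2 ^ V * Real.exp (-(E / 2))) ≤
      1 / 3 * Real.exp (-(ε * n / 8)) := by
    have h4 := nmm_two_pow V _ hV
    have h5 : Real.exp (-(E / 2)) ≤ Real.exp (-(ε * n / 2)) := Real.exp_le_exp.mpr (by linarith)
    calc Real.exp (ε * n / 4) * (2 ^ V * Real.exp (-(E / 2))) ≤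
          Real.exp (ε * n / 4) * (Real.exp (0.6932 * (ε * n / 8)) * Real.exp (-(ε * n / 2))) :=
          mul_le_mul_of_nonneg_left (mul_le_mul h4 h5 (Real.exp_pos _).le (Real.exp_pos _).le)
            (Real.exp_pos _).le
      _ = Real.exp (-(0.16335 * (ε * n))) := by
          rw [← Real.exp_add, ← Real.exp_add]
          congr 1
          ring
      _ ≤ _ := nmm_third _ _ (by linarith)
  linarith

/-- the choice of the parameters -/
theorem numMY (ε : ℝ) (hε : 0 < ε) (hε1 : ε ≤ 1) (k : ℕ)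
    (hk : 10 ^ 8 * Real.log (16 / ε) ^ 2 ≤ ε ^ 2 * k) :
    ∃ n₀ : ℕ, ∀ n ≥ n₀, ∃ V m J0 m0 : ℕ, ∃ a : ℝ, V ≤ n ∧ 1 ≤ J0 ∧
      (m0 : ℝ) ≤ V - ε * n / 30 ∧
      (2 ^ J0 + (m : ℝ) / 2) * a ≤ 1 / 8 ∧
      (∀ f : ℕ, m0 ≤ f → f ≤ n → ((n : ℝ) - f / 2) ^ k ≤ a * ((n - k : ℕ) : ℝ) ^ k) ∧
      2 * (1 / 2 : ℝ) ^ J0 * (Real.exp (ε * k / 200) * n) ≤ ε * n / 8 ∧
      ∀ E : ℝ, ε * n ≤ E →
        Real.exp (-(3 / 10 * n)) + 3 ^ n * Real.exp (-(m * E / 4)) +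
          Real.exp (ε * n / 4) * (2 ^ V * Real.exp (-(E / 2))) ≤ Real.exp (-(ε * n / 8)) := by
  have hL := Numeric_u_lb hε hε1
  have hL2 : (7 : ℝ) ≤ Real.log (16 / ε) ^ 2 := by nlinarith
  have hek : 7 * 10 ^ 8 ≤ ε ^ 2 * k := by linarith
  have hk0 : (0 : ℝ) ≤ k := Nat.cast_nonneg k
  have hx : 7 * 10 ^ 8 / ε ≤ ε * k := by
    rw [div_le_iff₀ hε]
    linarith
  have hx1 : 7 * 10 ^ 8 ≤ ε * k := by
    refine le_trans ?_ hx
    rw [le_div_iff₀ hε]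
    linarith
  obtain ⟨n₀, hn₀⟩ := exists_nat_ge ((240 + 10 ^ 4 * k) / ε + k)
  refine ⟨n₀, fun n hn => ?_⟩
  have hn1 : (240 + 10 ^ 4 * k) / ε + k ≤ (n : ℝ) := hn₀.trans (by exact_mod_cast hn)
  have hn2 : (240 + 10 ^ 4 * k) / ε ≤ (n : ℝ) := by linarith
  rw [div_le_iff₀ hε] at hn2
  have hkn : k ≤ n := by
    have h1 : (0 : ℝ) ≤ (240 + 10 ^ 4 * k) / ε := by positivity
    have : (k : ℝ) ≤ n := by linarith
    exact_mod_cast this
  have hn3 : 240 ≤ ε * n := by linarith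
  have hn4 : 10 ^ 4 * (k : ℝ) ≤ ε * n := by linarith
  have hn0 : (0 : ℝ) ≤ n := Nat.cast_nonneg n
  have hεn : ε * n ≤ n := by nlinarith
  have hV1 := Nat.floor_le (by positivity : 0 ≤ ε * n / 8)
  have hV2 := Nat.lt_floor_add_one (ε * n / 8)
  have hm1 := Nat.le_ceil (12 / ε)
  have hm2 := Nat.ceil_lt_add_one (by positivity : 0 ≤ 12 / ε)
  have hJ1 := Nat.floor_le (by positivity : 0 ≤ ε * k / 100)
  have hJ2 := Nat.lt_floor_add_one (ε * k / 100)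
  have hm3 := Nat.le_ceil (ε * n / 12)
  have hm4 := Nat.ceil_lt_add_one (by positivity : 0 ≤ ε * n / 12)
  refine ⟨⌊ε * n / 8⌋₊, ⌈12 / ε⌉₊, ⌊ε * k / 100⌋₊, ⌈ε * n / 12⌉₊, Real.exp (-(ε * k / 25)),
    ?_, ?_, ?_, ?_, ?_, ?_, ?_⟩
  · have : ((⌊ε * n / 8⌋₊ : ℕ) : ℝ) ≤ n := by linarith
    exact_mod_cast this
  · rw [Nat.one_le_floor_iff]
    linarith
  · linarith
  · have h1 : (2 : ℝ) ^ ⌊ε * k / 100⌋₊ * Real.exp (-(ε * k / 25)) ≤ 1 / 16 := by
      have h2 := nmm_two_pow _ _ hJ1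
      calc (2 : ℝ) ^ ⌊ε * k / 100⌋₊ * Real.exp (-(ε * k / 25)) ≤
            Real.exp (0.6932 * (ε * k / 100)) * Real.exp (-(ε * k / 25)) :=
            mul_le_mul_of_nonneg_right h2 (Real.exp_pos _).le
        _ = Real.exp (-(0.033068 * (ε * k))) := by
            rw [← Real.exp_add]
            congr 1
            ring
        _ ≤ 1 / (0.033068 * (ε * k)) := nmm_exp_neg_le (by linarith)
        _ ≤ 1 / 16 := one_div_le_one_div_of_le (by norm_num) (by linarith)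
    have h2 : ((⌈12 / ε⌉₊ : ℕ) : ℝ) / 2 * Real.exp (-(ε * k / 25)) ≤ 1 / 16 := by
      have h3 : ((⌈12 / ε⌉₊ : ℕ) : ℝ) ≤ 13 / ε := by
        have h4 : 1 ≤ 1 / ε := by
          rw [le_div_iff₀ hε]
          linarith
        have h5 : (13 : ℝ) / ε = 12 / ε + 1 / ε := by ring
        linarith
      have h4 : Real.exp (-(ε * k / 25)) ≤ 1 / (ε * k / 25) := nmm_exp_neg_le (by linarith)
      have h5 : 1 / (ε * k / 25) ≤ ε / (28 * 10 ^ 6) := by
        rw [div_le_div_iff₀ (by linarith) (by norm_num)]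
        nlinarith
      calc ((⌈12 / ε⌉₊ : ℕ) : ℝ) / 2 * Real.exp (-(ε * k / 25)) ≤
            13 / ε / 2 * (ε / (28 * 10 ^ 6)) :=
            mul_le_mul (by linarith) (h4.trans h5) (Real.exp_pos _).le (by positivity)
        _ = 13 / (56 * 10 ^ 6) := by
            field_simp
            norm_num
        _ ≤ 1 / 16 := by norm_num
    linarith
  · intro f hf hfn
    refine nmm_emb ε hε hε1 k n f hkn hn4 ?_ hfn
    have : ((⌈ε * n / 12⌉₊ : ℕ) : ℝ) ≤ f := by exact_mod_cast hf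
    linarith
  · have h1 := nmm_half_pow ⌊ε * k / 100⌋₊ (ε * k / 100) (by positivity) (by linarith)
    have h2 : 2 * (1 / 2 : ℝ) ^ ⌊ε * k / 100⌋₊ * Real.exp (ε * k / 200) ≤ ε / 8 := by
      calc 2 * (1 / 2 : ℝ) ^ ⌊ε * k / 100⌋₊ * Real.exp (ε * k / 200) ≤
            2 * (2 * Real.exp (-(0.69 * (ε * k / 100)))) * Real.exp (ε * k / 200) :=
            mul_le_mul_of_nonneg_right (by linarith) (Real.exp_pos _).le
        _ = 4 * (Real.exp (-(0.69 * (ε * k / 100))) * Real.exp (ε * k / 200)) := by ring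
        _ = 4 * Real.exp (-(0.0019 * (ε * k))) := by
            rw [← Real.exp_add]
            congr 2
            ring
        _ ≤ 4 * (1 / (0.0019 * (ε * k))) :=
            mul_le_mul_of_nonneg_left (nmm_exp_neg_le (by linarith)) (by norm_num)
        _ ≤ ε / 8 := by
            rw [mul_one_div, div_le_div_iff₀ (by linarith) (by norm_num)]
            nlinarith
    have h3 := mul_le_mul_of_nonneg_right h2 hn0
    calc 2 * (1 / 2 : ℝ) ^ ⌊ε * k / 100⌋₊ * (Real.exp (ε * k / 200) * n) =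
          2 * (1 / 2 : ℝ) ^ ⌊ε * k / 100⌋₊ * Real.exp (ε * k / 200) * n := by ring
      _ ≤ ε / 8 * n := h3
      _ = ε * n / 8 := by ring
  · intro E hE
    exact nmm_sum ε hε hε1 n _ _ hn3 hV1 hm1 E hE

end Pool.Agent.KS
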