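import Pool.Agent.Lib.MP_f017c9_lc_MY.Wt

/-!
# Random k-SAT: myopic search, conditioning on what has been looked at
-/

namespace Pool.Agent.KS

open Finset

variable {n k M : ℕ}

namespace Swp

/-- the clause signs seen outside `W`, `Q` are replaced by `s` -/
def mix (F : Formula n k M) (s : Fin M → Pat k) (W : Finset (Fin n)) (Q : Finset (Fin M)) :
    Formula n k M :=
  fun j => ((F j).1, fun i => if (F j).1 i ∈ W ∨ j ∈ Q then (F j).2 i else s j i)

/-- the complementary part of the exchange -/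
def mixs (F : Formula n k M) (s : Fin M → Pat k) (W : Finset (Fin n)) (Q : Finset (Fin M)) :
    Fin M → Pat k :=
  fun j i => if (F j).1 i ∈ W ∨ j ∈ Q then s j i else (F j).2 i

theorem agree_mix (F : Formula n k M) (s : Fin M → Pat k) (W : Finset (Fin n))
    (Q : Finset (Fin M)) : Agree F (mix F s W Q) W Q := by
  intro j
  refine ⟨rfl, fun i hi => ?_⟩
  simp only [mix]
  rw [if_pos hi]

theorem mix_mix (F : Formula n k M) (s : Fin M → Pat k) (W : Finset (Fin n))
    (Q : Finset (Fin M)) : mix (mix F s W Q) (mixs F s W Q) W Q = F := by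
  funext j
  refine Prod.ext rfl ?_
  funext i
  simp only [mix, mixs]
  split_ifs <;> rfl

theorem mixs_mix (F : Formula n k M) (s : Fin M → Pat k) (W : Finset (Fin n))
    (Q : Finset (Fin M)) : mixs (mix F s W Q) (mixs F s W Q) W Q = s := by
  funext j i
  simp only [mix, mixs]
  split_ifs <;> rfl

theorem restr_mem {σ : Asg n} {W : Finset (Fin n)} {x : Fin n} (h : x ∈ W) :
    restr σ W x = some (σ x) := if_pos h

theorem restr_not_mem {σ : Asg n} {W : Finset (Fin n)} {x : Fin n} (h : x ∉ W) :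
    restr σ W x = none := if_neg h

theorem unsat_agree {F F' : Formula n k M} {W : Finset (Fin n)} {Q : Finset (Fin M)}
    (h : Agree F F' W Q) (σ : Asg n) (j : Fin M) :
    Unsat (restr σ W) (F' j) ↔ Unsat (restr σ W) (F j) := by
  unfold Unsat
  refine forall_congr' fun i => ?_
  rw [(h j).1]
  by_cases hi : (F j).1 i ∈ W
  · rw [(h j).2 i (Or.inl hi)]
  · rw [restr_not_mem hi]
    simp

theorem psi_agree {F F' : Formula n k M} {W : Finset (Fin n)} {Q : Finset (Fin M)}
    (h : Agree F F' W Q) (σ : Asg n) : psi F' W Q σ = psi F W Q σ := by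
  unfold psi
  refine Finset.prod_congr rfl fun j _ => ?_
  have h1 : wt 0 (restr σ W) (F' j) = wt 0 (restr σ W) (F j) := by
    have e1 : nfree (restr σ W) (F' j).1 = nfree (restr σ W) (F j).1 := by rw [(h j).1]
    have e2 : (Unsat (restr σ W) (F' j) ∧ 0 ≤ nfree (restr σ W) (F' j).1) ↔
        (Unsat (restr σ W) (F j) ∧ 0 ≤ nfree (restr σ W) (F j).1) := by
      rw [e1]
      exact and_congr_left' (unsat_agree h σ j)
    unfold wt
    by_cases hc : Unsat (restr σ W) (F j) ∧ 0 ≤ nfree (restr σ W) (F j).1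
    · rw [if_pos hc, if_pos (e2.2 hc), e1]
    · rw [if_neg hc, if_neg (fun h' => hc (e2.1 h'))]
  rw [h1]

open Classical in
theorem card_clause (c : Clause n k) (W : Finset (Fin n)) (σ : Asg n) :
    (#{p : Pat k | ¬ Violated σ (c.1, fun i => if c.1 i ∈ W then c.2 i else p i)} : ℝ) ≤
      2 ^ k * (1 - wt 0 (restr σ W) c) := by
  have hcard : (Fintype.card (Pat k) : ℝ) = 2 ^ k := by
    simp [Pat]
  have hle : (#{p : Pat k | ¬ Violated σ (c.1, fun i => if c.1 i ∈ W then c.2 i else p i)} : ℝ) ≤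
      2 ^ k := by
    rw [← hcard]
    exact_mod_cast Finset.card_le_univ _
  by_cases hU : Unsat (restr σ W) c
  · have hw : wt 0 (restr σ W) c = (1 / 2) ^ nfree (restr σ W) c.1 := by
      unfold wt
      rw [if_pos ⟨hU, Nat.zero_le _⟩]
    have hsplit : (#{p : Pat k | ¬ Violated σ (c.1, fun i => if c.1 i ∈ W then c.2 i else p i)} : ℝ) +
        (#{p : Pat k | Violated σ (c.1, fun i => if c.1 i ∈ W then c.2 i else p i)} : ℝ) = 2 ^ k := by
      rw [← hcard]
      have h := Finset.card_filter_add_card_filter_not (s := (univ : Finset (Pat k)))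
        (fun p => Violated σ (c.1, fun i => if c.1 i ∈ W then c.2 i else p i))
      rw [Finset.card_univ] at h
      rw [← h]
      push_cast
      ring
    have hviol : (univ.filter fun p : Pat k =>
        Violated σ (c.1, fun i => if c.1 i ∈ W then c.2 i else p i)) =
        Fintype.piFinset (fun i => if c.1 i ∈ W then (univ : Finset Bool) else {!σ (c.1 i)}) := by
      ext p
      rw [mem_filter, Fintype.mem_piFinset]
      simp only [mem_univ, true_and, Violated]
      refine forall_congr' fun i => ?_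
      by_cases hi : c.1 i ∈ W
      · rw [if_pos hi, if_pos hi]
        have h1 := hU i
        rw [restr_mem hi] at h1
        simp only [mem_univ, iff_true]
        intro h2
        exact h1 (by rw [h2])
      · rw [if_neg hi, if_neg hi, mem_singleton]
        cases σ (c.1 i) <;> cases p i <;> simp
    have hcv : (#{p : Pat k | Violated σ (c.1, fun i => if c.1 i ∈ W then c.2 i else p i)} : ℝ) =
        2 ^ k * (1 / 2) ^ nfree (restr σ W) c.1 := by
      rw [hviol, Fintype.card_piFinset]
      have h1 : ∀ i : Fin k, (if c.1 i ∈ W then (univ : Finset Bool) else {!σ (c.1 i)}).card =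
          if c.1 i ∈ W then 2 else 1 := by
        intro i
        split_ifs
        · simp
        · simp
      rw [Finset.prod_congr rfl fun i _ => h1 i]
      rw [Finset.prod_ite, Finset.prod_const, Finset.prod_const_one, mul_one]
      have h2 : nfree (restr σ W) c.1 = #{i | ¬ c.1 i ∈ W} := by
        unfold nfree
        congr 1
        ext i
        simp only [mem_filter, mem_univ, true_and]
        constructor
        · intro h hi
          rw [restr_mem hi] at h
          exact absurd h (by simp)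
        · intro h
          exact restr_not_mem h
      have h3 := Finset.card_filter_add_card_filter_not (s := (univ : Finset (Fin k)))
        (fun i => c.1 i ∈ W)
      rw [Finset.card_univ, Fintype.card_fin] at h3
      rw [h2]
      push_cast
      have h4 : (2 : ℝ) ^ k = 2 ^ (#{i : Fin k | c.1 i ∈ W}) * 2 ^ (#{i : Fin k | ¬ c.1 i ∈ W}) := by
        rw [← pow_add, h3]
      rw [h4, mul_assoc, ← mul_pow]
      norm_num
    rw [hw, mul_sub, mul_one, ← hcv]
    linarith
  · have hw : wt 0 (restr σ W) c = 0 := by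
      unfold wt
      rw [if_neg (fun h => hU h.1)]
    rw [hw, sub_zero, mul_one]
    exact hle

theorem wt_le_one (J0 : ℕ) (τ : PA n) (c : Clause n k) : wt J0 τ c ≤ 1 := by
  unfold wt
  split_ifs
  · exact pow_le_one₀ (by norm_num) (by norm_num)
  · exact zero_le_one

open Classical in
theorem card_count (F : Formula n k M) (W : Finset (Fin n)) (Q : Finset (Fin M)) (σ : Asg n) :
    (#{s : Fin M → Pat k | ∀ j, ¬ Violated σ (mix F s W Q j)} : ℝ) ≤
      Fintype.card (Fin M → Pat k) * psi F W Q σ := by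
  have hset : (univ.filter fun s : Fin M → Pat k => ∀ j, ¬ Violated σ (mix F s W Q j)) =
      Fintype.piFinset (fun j => univ.filter fun p : Pat k =>
        ¬ Violated σ ((F j).1, fun i => if (F j).1 i ∈ W ∨ j ∈ Q then (F j).2 i else p i)) := by
    ext s
    simp only [mem_filter, mem_univ, true_and, Fintype.mem_piFinset]
    rfl
  rw [hset, Fintype.card_piFinset]
  push_cast
  have hcard : (Fintype.card (Fin M → Pat k) : ℝ) = ∏ _j : Fin M, (2 : ℝ) ^ k := by
    simp [Pat]
  have hpsi : psi F W Q σ = ∏ j : Fin M, if j ∈ Q then 1 else (1 - wt 0 (restr σ W) (F j)) := by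
    unfold psi
    rw [Finset.prod_ite]
    simp only [Finset.prod_const_one, one_mul]
    refine Finset.prod_congr ?_ fun _ _ => rfl
    ext j
    simp
  rw [hcard, hpsi, ← Finset.prod_mul_distrib]
  refine Finset.prod_le_prod (fun j _ => Nat.cast_nonneg _) fun j _ => ?_
  by_cases hj : j ∈ Q
  · rw [if_pos hj, mul_one]
    have h1 : (Fintype.card (Pat k) : ℝ) = 2 ^ k := by
      simp [Pat]
    rw [← h1]
    exact_mod_cast Finset.card_le_univ _
  · rw [if_neg hj]
    have h1 : ∀ i, ((F j).1 i ∈ W ∨ j ∈ Q) ↔ (F j).1 i ∈ W := fun i => by simp [hj]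
    simp only [h1]
    exact card_clause (F j) W σ

end Swp

open Classical in
/-- conditioning on the looked signs: `W`, `Q`, `S` depend only on the signs at the occurrences of
the variables in `W F` and in the clauses in `Q F` -/
theorem swap_bound (V : Finset (Formula n k M)) (W : Formula n k M → Finset (Fin n))
    (Q : Formula n k M → Finset (Fin M)) (S : Formula n k M → Finset (Asg n)) (N β : ℝ)
    (hinv : ∀ F ∈ V, ∀ F', Agree F F' (W F) (Q F) →
      F' ∈ V ∧ W F' = W F ∧ Q F' = Q F ∧ S F' = S F)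
    (hN : ∀ F ∈ V, ((S F).card : ℝ) ≤ N) (hβ : 0 ≤ β) (hN0 : 0 ≤ N) :
    (#{F ∈ V | (∀ σ ∈ S F, psi F (W F) (Q F) σ ≤ β) ∧
      ∃ σ ∈ S F, ∀ j, ¬ Violated σ (F j)} : ℝ) ≤ N * β * Fintype.card (Formula n k M) := by
  set P : Formula n k M → Prop := fun F => ∀ σ ∈ S F, psi F (W F) (Q F) σ ≤ β with hP
  set A : Finset (Formula n k M) := {F ∈ V | (∀ σ ∈ S F, psi F (W F) (Q F) σ ≤ β) ∧
      ∃ σ ∈ S F, ∀ j, ¬ Violated σ (F j)} with hA
  let B : Finset (Formula n k M × (Fin M → Pat k)) :=
    ((V.filter P) ×ˢ (univ : Finset (Fin M → Pat k))).filter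
      (fun x => ∃ σ ∈ S x.1, ∀ j, ¬ Violated σ (Swp.mix x.1 x.2 (W x.1) (Q x.1) j))
  have h1 : (A ×ˢ (univ : Finset (Fin M → Pat k))).card ≤ B.card := by
    refine Finset.card_le_card_of_injOn
      (fun x => (Swp.mix x.1 x.2 (W x.1) (Q x.1), Swp.mixs x.1 x.2 (W x.1) (Q x.1))) ?_ ?_
    · rintro ⟨F, s⟩ hx
      have hx' : (F, s) ∈ A ×ˢ (univ : Finset (Fin M → Pat k)) := hx
      rw [mem_product] at hx'
      have hFA : F ∈ A := hx'.1
      rw [hA, mem_filter] at hFA
      obtain ⟨hFV, hFP, σ, hσ, hv⟩ := hFA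
      obtain ⟨i1, i2, i3, i4⟩ := hinv F hFV _ (Swp.agree_mix F s (W F) (Q F))
      change (Swp.mix F s (W F) (Q F), Swp.mixs F s (W F) (Q F)) ∈ B
      rw [mem_filter, mem_product, mem_filter]
      refine ⟨⟨⟨i1, ?_⟩, mem_univ _⟩, σ, ?_, ?_⟩
      · intro τ hτ
        rw [i4] at hτ
        rw [i2, i3, Swp.psi_agree (Swp.agree_mix F s (W F) (Q F)) τ]
        exact hFP τ hτ
      · rw [i4]
        exact hσ
      · intro j
        rw [i2, i3, Swp.mix_mix]
        exact hv j
    · rintro ⟨F, s⟩ hx ⟨F', s'⟩ hx' he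
      have hx1 : (F, s) ∈ A ×ˢ (univ : Finset (Fin M → Pat k)) := hx
      have hx1' : (F', s') ∈ A ×ˢ (univ : Finset (Fin M → Pat k)) := hx'
      rw [mem_product] at hx1 hx1'
      have hFV : F ∈ V := (mem_filter.1 hx1.1).1
      have hFV' : F' ∈ V := (mem_filter.1 hx1'.1).1
      obtain ⟨-, i2, i3, -⟩ := hinv F hFV _ (Swp.agree_mix F s (W F) (Q F))
      obtain ⟨-, i2', i3', -⟩ := hinv F' hFV' _ (Swp.agree_mix F' s' (W F') (Q F'))
      have e1 : Swp.mix F s (W F) (Q F) = Swp.mix F' s' (W F') (Q F') := congrArg Prod.fst he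
      have e2 : Swp.mixs F s (W F) (Q F) = Swp.mixs F' s' (W F') (Q F') := congrArg Prod.snd he
      have eW : W F = W F' := by rw [← i2, ← i2', e1]
      have eQ : Q F = Q F' := by rw [← i3, ← i3', e1]
      have f1 := Swp.mix_mix F s (W F) (Q F)
      have f2 := Swp.mixs_mix F s (W F) (Q F)
      rw [e1, e2, eW, eQ, Swp.mix_mix] at f1
      rw [e1, e2, eW, eQ, Swp.mixs_mix] at f2
      rw [f1, f2]
  have h2 : (B.card : ℝ) ≤ ∑ _F ∈ V.filter P, N * (Fintype.card (Fin M → Pat k) * β) := by
    have e : B.card = ∑ F ∈ V.filter P, #{s : Fin M → Pat k |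
        ∃ σ ∈ S F, ∀ j, ¬ Violated σ (Swp.mix F s (W F) (Q F) j)} := by
      simp only [B]
      rw [Finset.card_filter, Finset.sum_product]
      refine Finset.sum_congr rfl fun F _ => ?_
      rw [Finset.card_filter]
    rw [e]
    push_cast
    refine Finset.sum_le_sum fun F hF => ?_
    rw [mem_filter] at hF
    obtain ⟨hFV, hFP⟩ := hF
    have g1 : #{s : Fin M → Pat k |
        ∃ σ ∈ S F, ∀ j, ¬ Violated σ (Swp.mix F s (W F) (Q F) j)} ≤
        ∑ σ ∈ S F, #{s : Fin M → Pat k | ∀ j, ¬ Violated σ (Swp.mix F s (W F) (Q F) j)} := by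
      refine le_trans (Finset.card_le_card ?_) Finset.card_biUnion_le
      intro s hs
      rw [mem_filter] at hs
      obtain ⟨-, σ, hσ, hv⟩ := hs
      rw [mem_biUnion]
      exact ⟨σ, hσ, mem_filter.2 ⟨mem_univ _, hv⟩⟩
    have g2 : (#{s : Fin M → Pat k |
        ∃ σ ∈ S F, ∀ j, ¬ Violated σ (Swp.mix F s (W F) (Q F) j)} : ℝ) ≤
        ∑ σ ∈ S F,
          (#{s : Fin M → Pat k | ∀ j, ¬ Violated σ (Swp.mix F s (W F) (Q F) j)} : ℝ) := by
      exact_mod_cast g1
    refine g2.trans ?_
    have g3 : ∑ σ ∈ S F,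
          (#{s : Fin M → Pat k | ∀ j, ¬ Violated σ (Swp.mix F s (W F) (Q F) j)} : ℝ) ≤
        ∑ _σ ∈ S F, (Fintype.card (Fin M → Pat k) * β : ℝ) := by
      refine Finset.sum_le_sum fun σ hσ => ?_
      exact (Swp.card_count F (W F) (Q F) σ).trans
        (mul_le_mul_of_nonneg_left (hFP σ hσ) (Nat.cast_nonneg _))
    refine g3.trans ?_
    rw [Finset.sum_const, nsmul_eq_mul]
    exact mul_le_mul_of_nonneg_right (hN F hFV) (mul_nonneg (Nat.cast_nonneg _) hβ)
  have hSg : (0 : ℝ) < Fintype.card (Fin M → Pat k) := by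
    exact_mod_cast Fintype.card_pos
  rw [Finset.card_product, Finset.card_univ] at h1
  have h3 : (A.card : ℝ) * Fintype.card (Fin M → Pat k) ≤
      (N * β * Fintype.card (Formula n k M)) * Fintype.card (Fin M → Pat k) := by
    have h4 : (A.card : ℝ) * Fintype.card (Fin M → Pat k) ≤ (B.card : ℝ) := by
      exact_mod_cast h1
    refine h4.trans (h2.trans ?_)
    rw [Finset.sum_const, nsmul_eq_mul]
    have h5 : ((V.filter P).card : ℝ) ≤ Fintype.card (Formula n k M) := by
      exact_mod_cast Finset.card_le_univ _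
    have h6 : (0 : ℝ) ≤ N * (Fintype.card (Fin M → Pat k) * β) :=
      mul_nonneg hN0 (mul_nonneg (Nat.cast_nonneg _) hβ)
    calc ((V.filter P).card : ℝ) * (N * (Fintype.card (Fin M → Pat k) * β))
        ≤ Fintype.card (Formula n k M) * (N * (Fintype.card (Fin M → Pat k) * β)) :=
          mul_le_mul_of_nonneg_right h5 h6
      _ = _ := by ring
  exact le_of_mul_le_mul_right h3 hSg

end Pool.Agent.KS
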