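import Pool.Agent.Lib.MP_f017c9_lc_MY.Mom

/-!
# Random k-SAT: myopic search, the uniform bound over all partial assignments
-/

namespace Pool.Agent.KS

open Finset

variable {n k M : ℕ}

private theorem uni_mom (m J0 : ℕ) (τ : PA n) :
    ∑ F : Formula n k M, (∏ j, (1 - wt J0 τ (F j))) ^ m =
      (∑ c : Clause n k, (1 - wt J0 τ c) ^ m) ^ M := by
  have h1 := (Fintype.sum_pow (fun c : Clause n k => (1 - wt J0 τ c) ^ m) M)
  rw [h1]
  refine Finset.sum_congr rfl fun F _ => ?_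
  rw [Finset.prod_pow]

private theorem uni_prod_nonneg (J0 : ℕ) (τ : PA n) (F : Formula n k M) (s : Finset (Fin M)) :
    0 ≤ ∏ j ∈ s, (1 - wt J0 τ (F j)) :=
  Finset.prod_nonneg fun j _ => by
    have := wt_le_one J0 τ (F j)
    linarith

open Classical in
private theorem uni_one (m J0 : ℕ) (a : ℝ) (τ : PA n)
    (ha : ∑ e : Fin k ↪ Fin n, ((1 : ℝ) / 2) ^ nfree τ e ≤ a * Fintype.card (Fin k ↪ Fin n))
    (h : (2 ^ J0 + m / 2) * a ≤ 1 / 8) :
    (#{F : Formula n k M |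
        Real.exp (-(5 / 8 * (M / 2 ^ k))) < ∏ j, (1 - wt J0 τ (F j))} : ℝ) ≤
      Real.exp (-(m * (M / 2 ^ k) / 4)) * Fintype.card (Formula n k M) := by
  have h1 := clause_moment J0 m τ a ha h
  have h2 : ∑ F : Formula n k M, (∏ j, (1 - wt J0 τ (F j))) ^ m ≤
      (Fintype.card (Clause n k) * Real.exp (-(7 / 8 * m / 2 ^ k))) ^ M := by
    rw [uni_mom]
    refine pow_le_pow_left₀ (Finset.sum_nonneg fun c _ => ?_) h1 M
    have := wt_le_one J0 τ c
    exact pow_nonneg (by linarith) m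
  have h3 : (Fintype.card (Clause n k) * Real.exp (-(7 / 8 * m / 2 ^ k))) ^ M =
      Fintype.card (Formula n k M) * Real.exp (-(7 / 8 * m * (M / 2 ^ k))) := by
    rw [mul_pow, ← Real.exp_nat_mul]
    have h4 : (Fintype.card (Formula n k M) : ℝ) = (Fintype.card (Clause n k) : ℝ) ^ M := by
      rw [Fintype.card_fun, Fintype.card_fin]
      push_cast
      rfl
    rw [h4]
    congr 2
    ring
  rw [h3] at h2
  set S := (univ.filter fun F : Formula n k M =>
    Real.exp (-(5 / 8 * (M / 2 ^ k))) < ∏ j, (1 - wt J0 τ (F j))) with hS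
  have h5 : (S.card : ℝ) * Real.exp (-(5 / 8 * (M / 2 ^ k))) ^ m ≤
      ∑ F : Formula n k M, (∏ j, (1 - wt J0 τ (F j))) ^ m := by
    have h6 : (S.card : ℝ) * Real.exp (-(5 / 8 * (M / 2 ^ k))) ^ m =
        ∑ F ∈ S, Real.exp (-(5 / 8 * (M / 2 ^ k))) ^ m := by
      rw [Finset.sum_const, nsmul_eq_mul]
    rw [h6]
    refine (Finset.sum_le_sum (f := fun _ => Real.exp (-(5 / 8 * (M / 2 ^ k))) ^ m)
      (g := fun F : Formula n k M => (∏ j, (1 - wt J0 τ (F j))) ^ m) fun F hF => ?_).trans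
      (Finset.sum_le_sum_of_subset_of_nonneg (Finset.subset_univ S) fun F _ _ =>
        pow_nonneg (uni_prod_nonneg J0 τ F univ) m)
    exact pow_le_pow_left₀ (Real.exp_pos _).le (Finset.mem_filter.mp hF).2.le m
  have h7 : Real.exp (-(5 / 8 * (M / 2 ^ k))) ^ m = Real.exp (-(5 / 8 * m * (M / 2 ^ k))) := by
    rw [← Real.exp_nat_mul]
    congr 1
    ring
  rw [h7] at h5
  have h8 := h5.trans h2
  have h9 : (0 : ℝ) < Real.exp (5 / 8 * m * (M / 2 ^ k)) := Real.exp_pos _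
  have h10 := mul_le_mul_of_nonneg_right h8 h9.le
  have h11 : Real.exp (-(5 / 8 * m * (M / 2 ^ k) : ℝ)) * Real.exp (5 / 8 * m * (M / 2 ^ k)) =
      1 := by
    rw [← Real.exp_add, neg_add_cancel, Real.exp_zero]
  have h12 : Real.exp (-(7 / 8 * m * (M / 2 ^ k) : ℝ)) * Real.exp (5 / 8 * m * (M / 2 ^ k)) =
      Real.exp (-(m * (M / 2 ^ k) / 4)) := by
    rw [← Real.exp_add]
    congr 1
    ring
  rw [mul_assoc, h11, mul_one, mul_assoc, h12] at h10
  rw [mul_comm]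
  exact h10

open Classical in
theorem unif (m J0 m0 : ℕ) (a : ℝ)
    (ha : ∀ τ : PA n, m0 ≤ nf τ →
      ∑ e : Fin k ↪ Fin n, ((1 : ℝ) / 2) ^ nfree τ e ≤ a * Fintype.card (Fin k ↪ Fin n))
    (h : (2 ^ J0 + m / 2) * a ≤ 1 / 8) :
    (#{F : Formula n k M | ∃ τ : PA n, m0 ≤ nf τ ∧
        Real.exp (-(5 / 8 * (M / 2 ^ k))) < ∏ j, (1 - wt J0 τ (F j))} : ℝ) ≤
      3 ^ n * Real.exp (-(m * (M / 2 ^ k) / 4)) * Fintype.card (Formula n k M) := by
  have hsub : (univ.filter fun F : Formula n k M => ∃ τ : PA n, m0 ≤ nf τ ∧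
      Real.exp (-(5 / 8 * (M / 2 ^ k))) < ∏ j, (1 - wt J0 τ (F j))) ⊆
      (univ.filter fun τ : PA n => m0 ≤ nf τ).biUnion fun τ =>
        univ.filter fun F : Formula n k M =>
          Real.exp (-(5 / 8 * (M / 2 ^ k))) < ∏ j, (1 - wt J0 τ (F j)) := by
    intro F hF
    obtain ⟨τ, h1, h2⟩ := (Finset.mem_filter.mp hF).2
    exact Finset.mem_biUnion.mpr ⟨τ, Finset.mem_filter.mpr ⟨Finset.mem_univ _, h1⟩,
      Finset.mem_filter.mpr ⟨Finset.mem_univ _, h2⟩⟩
  have h1 := (Finset.card_le_card hsub).trans Finset.card_biUnion_le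
  have h2 : ((univ.filter fun F : Formula n k M => ∃ τ : PA n, m0 ≤ nf τ ∧
      Real.exp (-(5 / 8 * (M / 2 ^ k))) < ∏ j, (1 - wt J0 τ (F j))).card : ℝ) ≤
      ∑ τ ∈ univ.filter fun τ : PA n => m0 ≤ nf τ,
        ((univ.filter fun F : Formula n k M =>
          Real.exp (-(5 / 8 * (M / 2 ^ k))) < ∏ j, (1 - wt J0 τ (F j))).card : ℝ) := by
    exact_mod_cast h1
  refine h2.trans ?_
  have h3 : ∑ τ ∈ univ.filter fun τ : PA n => m0 ≤ nf τ,
        ((univ.filter fun F : Formula n k M =>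
          Real.exp (-(5 / 8 * (M / 2 ^ k))) < ∏ j, (1 - wt J0 τ (F j))).card : ℝ) ≤
      ∑ τ ∈ univ.filter fun τ : PA n => m0 ≤ nf τ,
        Real.exp (-(m * (M / 2 ^ k) / 4)) * Fintype.card (Formula n k M) := by
    refine Finset.sum_le_sum fun τ hτ => ?_
    exact uni_one m J0 a τ (ha τ (Finset.mem_filter.mp hτ).2) h
  refine h3.trans ?_
  rw [Finset.sum_const, nsmul_eq_mul, mul_assoc]
  refine mul_le_mul_of_nonneg_right ?_ (by positivity)
  have h4 : (univ.filter fun τ : PA n => m0 ≤ nf τ).card ≤ 3 ^ n := by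
    refine (Finset.card_le_univ _).trans (le_of_eq ?_)
    rw [Fintype.card_fun, Fintype.card_option, Fintype.card_bool, Fintype.card_fin]
  exact_mod_cast h4

/-- from the truncated product to the conditional probability -/
theorem psi_le (J0 : ℕ) (hJ : 1 ≤ J0) (F : Formula n k M) (W : Finset (Fin n))
    (Q : Finset (Fin M)) (σ : Asg n) :
    psi F W Q σ ≤ (∏ j, (1 - wt J0 (restr σ W) (F j))) *
      Real.exp (2 * (1 / 2) ^ J0 * Q.card) := by
  classical
  have h1 : psi F W Q σ ≤ ∏ j ∈ Qᶜ, (1 - wt J0 (restr σ W) (F j)) := by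
    unfold psi
    refine Finset.prod_le_prod (fun j _ => ?_) fun j _ => ?_
    · have := wt_le_one 0 (restr σ W) (F j)
      linarith
    · have := wt_anti J0 (restr σ W) (F j)
      linarith
  set y : ℝ := (1 / 2) ^ J0 with hy
  have hy0 : 0 < y := by positivity
  have hy1 : y ≤ 1 / 2 := by
    have := pow_le_pow_of_le_one (by norm_num : (0 : ℝ) ≤ 1 / 2) (by norm_num) hJ
    simpa [hy] using this
  have h2 : 1 ≤ Real.exp (2 * y) * (1 - y) := by
    have h3 := Real.add_one_le_exp (2 * y)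
    have h4 : (2 * y + 1) * (1 - y) ≤ Real.exp (2 * y) * (1 - y) :=
      mul_le_mul_of_nonneg_right h3 (by linarith)
    nlinarith
  have h5 : Real.exp (2 * y * Q.card) = ∏ j ∈ Q, Real.exp (2 * y) := by
    rw [Finset.prod_const, ← Real.exp_nat_mul]
    congr 1
    ring
  have h6 : 1 ≤ (∏ j ∈ Q, (1 - wt J0 (restr σ W) (F j))) * Real.exp (2 * y * Q.card) := by
    rw [h5, ← Finset.prod_mul_distrib]
    have h7 : ∏ j ∈ Q, (1 : ℝ) ≤ ∏ j ∈ Q, ((1 - wt J0 (restr σ W) (F j)) * Real.exp (2 * y)) := by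
      refine Finset.prod_le_prod (fun _ _ => zero_le_one) fun j _ => ?_
      have h8 := wt_le J0 (restr σ W) (F j)
      have h9 : (1 - y) * Real.exp (2 * y) ≤
          (1 - wt J0 (restr σ W) (F j)) * Real.exp (2 * y) :=
        mul_le_mul_of_nonneg_right (by linarith) (Real.exp_pos _).le
      linarith
    simpa using h7
  have h10 := Finset.prod_compl_mul_prod Q fun j => (1 - wt J0 (restr σ W) (F j))
  have h11 := uni_prod_nonneg J0 (restr σ W) F Qᶜ
  calc psi F W Q σ ≤ ∏ j ∈ Qᶜ, (1 - wt J0 (restr σ W) (F j)) := h1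
    _ = (∏ j ∈ Qᶜ, (1 - wt J0 (restr σ W) (F j))) * 1 := (mul_one _).symm
    _ ≤ (∏ j ∈ Qᶜ, (1 - wt J0 (restr σ W) (F j))) *
          ((∏ j ∈ Q, (1 - wt J0 (restr σ W) (F j))) * Real.exp (2 * y * Q.card)) :=
        mul_le_mul_of_nonneg_left h6 h11
    _ = (∏ j, (1 - wt J0 (restr σ W) (F j))) * Real.exp (2 * y * Q.card) := by
        rw [← mul_assoc, h10]

end Pool.Agent.KS
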