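import Pool.Agent.Lib.MP_f017c9_lc_MY.Inv
import Pool.Agent.Lib.MP_f017c9_lc_MY.Swp
import Pool.Agent.Lib.MP_f017c9_lc_MY.Uni
import Pool.Agent.Lib.MP_f017c9_lc_MY.Nmm
import Pool.Agent.Lib.MP_f017c9_lc_BT.Main

/-!
# Random k-SAT: myopic backtracking search with clause learning (assembly)
-/

namespace Pool.Agent.KS

open Finset

open Classical in
theorem my_main (ε : ℝ) (hε : 0 < ε) (hε1 : ε ≤ 1) (k : ℕ)
    (hk : 10 ^ 8 * Real.log (16 / ε) ^ 2 ≤ ε ^ 2 * k) :
    ∃ n₀ : ℕ, ∀ n ≥ n₀, ∀ M : ℕ, ε * 2 ^ k * n ≤ M →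
      ∀ rule : Formula n k M → PA n → Lit n,
        Myopic rule (ε * n / 30) (Real.exp (ε * k / 200) * n) →
          (#{F : Formula n k M | Finds F (budget ε n) (rule F)} : ℝ) ≤
            Real.exp (-(ε * n / 8)) * Fintype.card (Formula n k M) := by
  obtain ⟨n₀, hn₀⟩ := bt_few ε hε hε1 k hk
  obtain ⟨n₁, hn₁⟩ := numMY ε hε hε1 k hk
  refine ⟨max n₀ n₁, fun n hn M hM rule hmy => ?_⟩
  have hn0 : n₀ ≤ n := le_trans (le_max_left _ _) hn
  have hn1 : n₁ ≤ n := le_trans (le_max_right _ _) hn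
  obtain ⟨hkn, hfew⟩ := hn₀ n hn0
  obtain ⟨V, m, J0, m0, a, hVn, hJ0, hm0, ha8, haf, hR, hfin⟩ := hn₁ n hn1
  obtain ⟨look, read, hw⟩ := hmy
  have hE : ε * n ≤ M / 2 ^ k := by
    rw [le_div_iff₀ (by positivity)]
    linarith
  set E : ℝ := (M : ℝ) / 2 ^ k with hEdef
  set t := n - V with ht
  have htn : t ≤ n := Nat.sub_le _ _
  have hcF : (0 : ℝ) ≤ Fintype.card (Formula n k M) := Nat.cast_nonneg _
  -- the exceptional sets
  set S0 : Finset (Formula n k M) := univ.filter fun F : Formula n k M => ∃ rule σ m,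
      FindsAt F (budget ε n) rule σ m ∧ ε / (64 * Real.log (16 / ε)) * n < (m : ℝ) with hS0
  set S1 : Finset (Formula n k M) := univ.filter fun F : Formula n k M => ∃ τ : PA n,
      m0 ≤ nf τ ∧ Real.exp (-(5 / 8 * (M / 2 ^ k))) < ∏ j, (1 - wt J0 τ (F j)) with hS1
  set P : Finset (Asg n) := univ.filter fun J : Asg n =>
    (hammingDist (fun _ => false) J : ℝ) ≤ ε / (64 * Real.log (16 / ε)) * n with hP
  let VJ : Asg n → Finset (Formula n k M) := fun J => univ.filter fun F => okPath (rule F) J t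
  let W : Asg n → Formula n k M → Finset (Fin n) := fun J F => look F (jnode (rule F) J t)
  let Q : Asg n → Formula n k M → Finset (Fin M) := fun J F => read F (jnode (rule F) J t)
  let S : Asg n → Formula n k M → Finset (Asg n) := fun J F =>
    univ.filter fun σ => Ext (jnode (rule F) J t) σ
  have hSc : ∀ J F, F ∈ VJ J → ((S J F).card : ℝ) ≤ 2 ^ V := by
    intro J F hF
    rw [mem_filter] at hF
    obtain ⟨S', hS', hc⟩ := card_ext (jnode (rule F) J t)
    have h1 : S J F = S' := by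
      ext σ
      rw [hS', mem_filter]
      simp
    have h2 := okPath_nf (rule F) J t htn hF.2 t le_rfl
    have h3 : nf (jnode (rule F) J t) = V := by omega
    rw [h1, hc, h3]
    push_cast
    exact le_rfl
  have hinv : ∀ J, ∀ F ∈ VJ J, ∀ F', Agree F F' (W J F) (Q J F) →
      F' ∈ VJ J ∧ W J F' = W J F ∧ Q J F' = Q J F ∧ S J F' = S J F := by
    intro J F hF F' hA
    rw [mem_filter] at hF
    obtain ⟨h1, h2, h3, h4⟩ := path_agree hw F F' J t htn hF.2 hA
    refine ⟨mem_filter.mpr ⟨mem_univ _, h2⟩, h3, h4, ?_⟩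
    change (univ.filter fun σ => Ext (jnode (rule F') J t) σ) =
      univ.filter fun σ => Ext (jnode (rule F) J t) σ
    rw [h1]
  have hsw : ∀ J, ((#{F ∈ VJ J | (∀ σ ∈ S J F, psi F (W J F) (Q J F) σ ≤ Real.exp (-(E / 2))) ∧
      ∃ σ ∈ S J F, ∀ j, ¬ Violated σ (F j)} : ℕ) : ℝ) ≤
        2 ^ V * Real.exp (-(E / 2)) * Fintype.card (Formula n k M) := fun J =>
    swap_bound (VJ J) (W J) (Q J) (S J) (2 ^ V) (Real.exp (-(E / 2))) (hinv J)
      (fun F hF => hSc J F hF) (Real.exp_pos _).le (by positivity)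
  have hsub : (univ.filter fun F : Formula n k M => Finds F (budget ε n) (rule F)) ⊆
      (S0 ∪ S1) ∪ P.biUnion fun J => {F ∈ VJ J | (∀ σ ∈ S J F,
        psi F (W J F) (Q J F) σ ≤ Real.exp (-(E / 2))) ∧
          ∃ σ ∈ S J F, ∀ j, ¬ Violated σ (F j)} := by
    intro F hF
    simp only [mem_filter, mem_univ, true_and] at hF
    obtain ⟨σ, m', hf⟩ := hF
    by_cases h0 : F ∈ S0
    · exact mem_union_left _ (mem_union_left _ h0)
    by_cases h1 : F ∈ S1
    · exact mem_union_left _ (mem_union_right _ h1)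
    apply mem_union_right
    rw [mem_biUnion]
    obtain ⟨J, hJ, hpath⟩ := findsAt_jnode (budget ε n) (rule F) hf
    obtain ⟨hok, hext⟩ := hpath t htn
    refine ⟨J, ?_, ?_⟩
    · rw [hP, mem_filter]
      refine ⟨mem_univ _, ?_⟩
      rw [hJ]
      by_contra hcon
      push Not at hcon
      exact h0 (mem_filter.mpr ⟨mem_univ _, _, σ, m', hf, hcon⟩)
    · rw [mem_filter]
      refine ⟨mem_filter.mpr ⟨mem_univ _, hok⟩, ?_, σ, mem_filter.mpr ⟨mem_univ _, hext⟩, hf.2⟩
      intro σ' _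
      have hnfr := nf_restr_look hw F J t htn hok σ'
      have hreal : (m0 : ℝ) ≤ nf (restr σ' (W J F)) := by
        refine le_trans ?_ hnfr
        have : (t : ℝ) = n - V := by
          rw [ht]
          push_cast [Nat.cast_sub hVn]
          ring
        rw [this]
        linarith
      have hm0' : m0 ≤ nf (restr σ' (W J F)) := by exact_mod_cast hreal
      have hprod : ∏ j, (1 - wt J0 (restr σ' (W J F)) (F j)) ≤
          Real.exp (-(5 / 8 * (M / 2 ^ k))) := by
        by_contra hcon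
        push Not at hcon
        exact h1 (mem_filter.mpr ⟨mem_univ _, _, hm0', hcon⟩)
      have hnode := okPath_node (rule F) J t htn hok t le_rfl
      have hread : ((Q J F).card : ℝ) ≤ Real.exp (ε * k / 200) * n :=
        (hw F _ hnode).2.2.1
      have hex : Real.exp (2 * (1 / 2) ^ J0 * (Q J F).card) ≤ Real.exp (E / 8) := by
        apply Real.exp_le_exp.mpr
        have h5 : (2 * (1 / 2 : ℝ) ^ J0) * (Q J F).card ≤
            2 * (1 / 2 : ℝ) ^ J0 * (Real.exp (ε * k / 200) * n) :=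
          mul_le_mul_of_nonneg_left hread (by positivity)
        linarith
      refine (psi_le J0 hJ0 F (W J F) (Q J F) σ').trans ?_
      calc (∏ j, (1 - wt J0 (restr σ' (W J F)) (F j))) * Real.exp (2 * (1 / 2) ^ J0 * (Q J F).card)
          ≤ Real.exp (-(5 / 8 * (M / 2 ^ k))) * Real.exp (E / 8) :=
            mul_le_mul hprod hex (Real.exp_pos _).le (Real.exp_pos _).le
        _ = Real.exp (-(E / 2)) := by
            rw [← Real.exp_add]
            congr 1
            rw [← hEdef]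
            ring
  have hc : ((univ.filter fun F : Formula n k M => Finds F (budget ε n) (rule F)).card : ℝ) ≤
      (S0.card + S1.card) + ∑ J ∈ P, ((#{F ∈ VJ J | (∀ σ ∈ S J F,
        psi F (W J F) (Q J F) σ ≤ Real.exp (-(E / 2))) ∧
          ∃ σ ∈ S J F, ∀ j, ¬ Violated σ (F j)} : ℕ) : ℝ) := by
    have h1 := (card_le_card hsub).trans (card_union_le _ _)
    have h2 := h1.trans (add_le_add (card_union_le _ _) card_biUnion_le)
    exact_mod_cast h2
  have hS0c := hfew M
  rw [← hS0] at hS0c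
  have hS1c : (S1.card : ℝ) ≤ 3 ^ n * Real.exp (-(m * E / 4)) *
      Fintype.card (Formula n k M) := by
    have := unif (n := n) (k := k) (M := M) m J0 m0 a (fun τ hτ => by
      refine (sum_half_pow τ).trans ((haf (nf τ) hτ (nf_le τ)).trans ?_)
      have ha0 : 0 ≤ a := by
        by_contra hneg
        push Not at hneg
        have h1 := haf (nf τ) hτ (nf_le τ)
        have h2 : (0 : ℝ) < ((n - k : ℕ) : ℝ) ^ k := by
          have : 0 < n - k := by omega
          positivity
        have h3 : (0 : ℝ) ≤ ((n : ℝ) - nf τ / 2) ^ k := by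
          have h4 : (nf τ : ℝ) ≤ n := by exact_mod_cast nf_le τ
          have h5 : (0 : ℝ) ≤ nf τ := Nat.cast_nonneg _
          have : (0 : ℝ) ≤ (n : ℝ) - nf τ / 2 := by linarith
          positivity
        nlinarith
      exact mul_le_mul_of_nonneg_left (card_emb_ge n k) ha0) ha8
    convert this using 2
  have hPc : (P.card : ℝ) ≤ Real.exp (ε * n / 4) := bt_ball ε hε hε1 _
  have hsum : (∑ J ∈ P, ((#{F ∈ VJ J | (∀ σ ∈ S J F,
        psi F (W J F) (Q J F) σ ≤ Real.exp (-(E / 2))) ∧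
          ∃ σ ∈ S J F, ∀ j, ¬ Violated σ (F j)} : ℕ) : ℝ)) ≤
      Real.exp (ε * n / 4) * (2 ^ V * Real.exp (-(E / 2))) *
        Fintype.card (Formula n k M) := by
    refine (sum_le_sum fun J _ => hsw J).trans ?_
    rw [sum_const, nsmul_eq_mul, ← mul_assoc]
    refine mul_le_mul_of_nonneg_right ?_ hcF
    exact mul_le_mul_of_nonneg_right hPc (by positivity)
  have hf := hfin E hE
  calc ((univ.filter fun F : Formula n k M => Finds F (budget ε n) (rule F)).card : ℝ)
      ≤ (S0.card + S1.card) + _ := hc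
    _ ≤ (Real.exp (-(3 / 10 * n)) * Fintype.card (Formula n k M) +
          3 ^ n * Real.exp (-(m * E / 4)) * Fintype.card (Formula n k M)) +
          Real.exp (ε * n / 4) * (2 ^ V * Real.exp (-(E / 2))) *
            Fintype.card (Formula n k M) := add_le_add (add_le_add hS0c hS1c) hsum
    _ = (Real.exp (-(3 / 10 * n)) + 3 ^ n * Real.exp (-(m * E / 4)) +
          Real.exp (ε * n / 4) * (2 ^ V * Real.exp (-(E / 2)))) *
            Fintype.card (Formula n k M) := by ring
    _ ≤ _ := mul_le_mul_of_nonneg_right hf hcF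

end Pool.Agent.KS
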