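import Pool.Agent.Lib.MP_f017c9_lc_MY.Wt
import Pool.Agent.Lib.MP_f017c9_lc_BT.Cnt

/-!
# Random k-SAT: myopic search, moments of the weight of a random clause
-/

namespace Pool.Agent.KS

open Finset

variable {n k M : ℕ}

private theorem mom_cnt (τ : PA n) (e : Fin k ↪ Fin n) [DecidablePred fun p : Pat k =>
    Unsat τ (e, p)] : #{p : Pat k | Unsat τ (e, p)} = 2 ^ nfree τ e := by
  classical
  have h1 : (univ.filter fun p : Pat k => Unsat τ (e, p)) =
      Fintype.piFinset fun i => univ.filter fun b : Bool => τ (e i) ≠ some b := by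
    ext p
    simp [Fintype.mem_piFinset, Unsat]
  rw [h1, Fintype.card_piFinset]
  have h2 : ∀ i : Fin k, (univ.filter fun b : Bool => τ (e i) ≠ some b).card =
      if τ (e i) = none then 2 else 1 := by
    intro i
    rcases h : τ (e i) with _ | b
    · simp
    · cases b <;> simp <;> decide
  simp only [h2]
  rw [Finset.prod_ite, Finset.prod_const, Finset.prod_const_one, mul_one]
  rfl

open Classical in
private theorem mom_row (J0 : ℕ) (τ : PA n) (e : Fin k ↪ Fin n) (g : ℝ) :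
    ∑ p : Pat k, (if Unsat τ (e, p) ∧ J0 ≤ nfree τ e then g else 0) =
      if J0 ≤ nfree τ e then 2 ^ nfree τ e * g else 0 := by
  by_cases hJ : J0 ≤ nfree τ e
  · simp only [hJ, and_true, if_true]
    rw [← Finset.sum_filter, Finset.sum_const, mom_cnt, nsmul_eq_mul]
    push_cast
    rfl
  · simp [hJ]

private theorem mom_sum_clause (f : Clause n k → ℝ) :
    ∑ c : Clause n k, f c = ∑ e : Fin k ↪ Fin n, ∑ p : Pat k, f (e, p) :=
  Fintype.sum_prod_type f

private theorem mom_wt_def (J0 : ℕ) (τ : PA n) (e : Fin k ↪ Fin n) :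
    ∑ p : Pat k, wt J0 τ (e, p) = if J0 ≤ nfree τ e then 1 else 0 := by
  classical
  have h1 := mom_row J0 τ e ((1 / 2) ^ nfree τ e)
  have h2 : (2 : ℝ) ^ nfree τ e * (1 / 2) ^ nfree τ e = 1 := by
    rw [← mul_pow]
    norm_num
  rw [h2] at h1
  rw [← h1]
  refine Finset.sum_congr rfl fun p _ => ?_
  unfold wt
  congr

private theorem mom_wt_sq (J0 : ℕ) (τ : PA n) (e : Fin k ↪ Fin n) :
    ∑ p : Pat k, wt J0 τ (e, p) ^ 2 = if J0 ≤ nfree τ e then (1 / 2) ^ nfree τ e else 0 := by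
  classical
  have h1 := mom_row J0 τ e (((1 / 2) ^ nfree τ e) ^ 2)
  have h2 : (2 : ℝ) ^ nfree τ e * ((1 / 2) ^ nfree τ e) ^ 2 = (1 / 2) ^ nfree τ e := by
    rw [sq, ← mul_assoc, ← mul_pow]
    norm_num
  rw [h2] at h1
  rw [← h1]
  refine Finset.sum_congr rfl fun p _ => ?_
  unfold wt
  split_ifs <;> simp

theorem wt_nonneg (J0 : ℕ) (τ : PA n) (c : Clause n k) : 0 ≤ wt J0 τ c := by
  unfold wt
  split_ifs
  · positivity
  · exact le_rfl

theorem wt_le (J0 : ℕ) (τ : PA n) (c : Clause n k) : wt J0 τ c ≤ (1 / 2) ^ J0 := by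
  unfold wt
  split_ifs with h
  · exact pow_le_pow_of_le_one (by norm_num) (by norm_num) h.2
  · positivity

theorem wt_anti (J0 : ℕ) (τ : PA n) (c : Clause n k) : wt J0 τ c ≤ wt 0 τ c := by
  unfold wt
  by_cases h : Unsat τ c
  · by_cases h2 : J0 ≤ nfree τ c.1
    · simp [h, h2]
    · simp [h, h2]
  · simp [h]

theorem wt_le_one (J0 : ℕ) (τ : PA n) (c : Clause n k) : wt J0 τ c ≤ 1 := by
  have h1 := wt_le J0 τ c
  have h2 : ((1 : ℝ) / 2) ^ J0 ≤ 1 := pow_le_one₀ (by norm_num) (by norm_num)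
  exact h1.trans h2

/-- the mean of `2 ^ (-number of free variables)` -/
theorem sum_half_pow (τ : PA n) :
    ∑ e : Fin k ↪ Fin n, ((1 : ℝ) / 2) ^ nfree τ e ≤ (n - nf τ / 2) ^ k := by
  classical
  have h1 : ∀ e : Fin k ↪ Fin n, ((1 : ℝ) / 2) ^ nfree τ e =
      ∏ i, (if τ (e i) = none then (1 : ℝ) / 2 else 1) := by
    intro e
    rw [Finset.prod_ite, Finset.prod_const, Finset.prod_const_one, mul_one]
    rfl
  have h2 : ∑ x : Fin n, (if τ x = none then (1 : ℝ) / 2 else 1) = n - nf τ / 2 := by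
    have h3 : ∀ x : Fin n, (if τ x = none then (1 : ℝ) / 2 else 1) =
        1 - (if τ x = none then (1 : ℝ) / 2 else 0) := by
      intro x
      split_ifs <;> norm_num
    simp only [h3]
    rw [Finset.sum_sub_distrib, ← Finset.sum_filter, Finset.sum_const, Finset.sum_const,
      Finset.card_univ, Fintype.card_fin, nsmul_eq_mul, nsmul_eq_mul, mul_one]
    unfold nf
    ring
  rw [← h2, Fintype.sum_pow]
  simp only [h1]
  have h3 := Finset.sum_map (univ : Finset (Fin k ↪ Fin n))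
    (⟨fun e => (e : Fin k → Fin n), DFunLike.coe_injective⟩ : (Fin k ↪ Fin n) ↪ (Fin k → Fin n))
    (fun f => ∏ i, (if τ (f i) = none then (1 : ℝ) / 2 else 1))
  refine le_trans (le_of_eq h3.symm) ?_
  refine Finset.sum_le_sum_of_subset_of_nonneg (Finset.subset_univ _) fun f _ _ => ?_
  refine Finset.prod_nonneg fun i _ => ?_
  split_ifs <;> norm_num

theorem card_emb_ge (n k : ℕ) : ((n - k : ℕ) : ℝ) ^ k ≤ Fintype.card (Fin k ↪ Fin n) := by
  rw [Fintype.card_embedding_eq, Fintype.card_fin, Fintype.card_fin]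
  have h2 := Nat.pow_sub_le_descFactorial n k
  have h3 : (n - k) ^ k ≤ (n + 1 - k) ^ k := Nat.pow_le_pow_left (by omega) k
  exact_mod_cast h3.trans h2

/-- the first moment -/
theorem sum_wt (J0 : ℕ) (τ : PA n) :
    (Fintype.card (Fin k ↪ Fin n) : ℝ) -
      2 ^ J0 * ∑ e : Fin k ↪ Fin n, ((1 : ℝ) / 2) ^ nfree τ e ≤ ∑ c : Clause n k, wt J0 τ c := by
  rw [mom_sum_clause]
  simp only [mom_wt_def]
  have h1 : (Fintype.card (Fin k ↪ Fin n) : ℝ) -
      2 ^ J0 * ∑ e : Fin k ↪ Fin n, ((1 : ℝ) / 2) ^ nfree τ e =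
      ∑ e : Fin k ↪ Fin n, (1 - 2 ^ J0 * ((1 : ℝ) / 2) ^ nfree τ e) := by
    rw [Finset.sum_sub_distrib, ← Finset.mul_sum, Finset.sum_const, Finset.card_univ,
      nsmul_eq_mul, mul_one]
  rw [h1]
  refine Finset.sum_le_sum fun e _ => ?_
  split_ifs with h
  · have : (0 : ℝ) ≤ 2 ^ J0 * (1 / 2) ^ nfree τ e := by positivity
    linarith
  · have h2 : ((1 : ℝ) / 2) ^ J0 ≤ (1 / 2) ^ nfree τ e :=
      pow_le_pow_of_le_one (by norm_num) (by norm_num) (not_le.mp h).le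
    have h3 : (2 : ℝ) ^ J0 * (1 / 2) ^ J0 = 1 := by
      rw [← mul_pow]
      norm_num
    have h4 := mul_le_mul_of_nonneg_left h2 (by positivity : (0 : ℝ) ≤ 2 ^ J0)
    linarith

/-- the second moment -/
theorem sum_wt_sq (J0 : ℕ) (τ : PA n) :
    ∑ c : Clause n k, wt J0 τ c ^ 2 ≤ ∑ e : Fin k ↪ Fin n, ((1 : ℝ) / 2) ^ nfree τ e := by
  rw [mom_sum_clause]
  simp only [mom_wt_sq]
  refine Finset.sum_le_sum fun e _ => ?_
  split_ifs
  · exact le_rfl
  · positivity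

theorem one_sub_pow_le (x : ℝ) (h0 : 0 ≤ x) (h1 : x ≤ 1) (m : ℕ) :
    (1 - x) ^ m ≤ 1 - m * x + m ^ 2 * x ^ 2 / 2 := by
  have key : ∀ m : ℕ, (1 - x) ^ m ≤ 1 - m * x + m * (m - 1) / 2 * x ^ 2 := by
    intro m
    induction m with
    | zero => simp
    | succ m ih =>
      have h2 : 0 ≤ 1 - x := by linarith
      have h3 : (0 : ℝ) ≤ m * (m - 1) := by
        rcases Nat.eq_zero_or_pos m with h | h
        · rw [h]
          simp
        · have : (1 : ℝ) ≤ m := by exact_mod_cast h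
          exact mul_nonneg (by linarith) (by linarith)
      have h4 : 0 ≤ (m : ℝ) * (m - 1) / 2 * x ^ 3 := by positivity
      calc (1 - x) ^ (m + 1) = (1 - x) ^ m * (1 - x) := pow_succ _ _
        _ ≤ (1 - m * x + m * (m - 1) / 2 * x ^ 2) * (1 - x) :=
            mul_le_mul_of_nonneg_right ih h2
        _ = 1 - ((m : ℝ) + 1) * x + (m + 1) * ((m : ℝ) + 1 - 1) / 2 * x ^ 2 -
            m * (m - 1) / 2 * x ^ 3 := by ring
        _ ≤ 1 - ((m : ℝ) + 1) * x + (m + 1) * ((m : ℝ) + 1 - 1) / 2 * x ^ 2 := by linarith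
        _ = _ := by push_cast; ring
  have h2 := key m
  have h3 : (0 : ℝ) ≤ m * x ^ 2 / 2 := by positivity
  have h4 : (m : ℝ) * (m - 1) / 2 * x ^ 2 = m ^ 2 * x ^ 2 / 2 - m * x ^ 2 / 2 := by ring
  linarith

/-- the moment generating bound for one clause -/
theorem clause_moment (J0 m : ℕ) (τ : PA n) (a : ℝ)
    (ha : ∑ e : Fin k ↪ Fin n, ((1 : ℝ) / 2) ^ nfree τ e ≤ a * Fintype.card (Fin k ↪ Fin n))
    (h : (2 ^ J0 + m / 2) * a ≤ 1 / 8) :
    ∑ c : Clause n k, (1 - wt J0 τ c) ^ m ≤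
      Fintype.card (Clause n k) * Real.exp (-(7 / 8 * m / 2 ^ k)) := by
  have h1 : ∑ c : Clause n k, (1 - wt J0 τ c) ^ m ≤
      ∑ c : Clause n k, (1 - m * wt J0 τ c + m ^ 2 * wt J0 τ c ^ 2 / 2) :=
    Finset.sum_le_sum fun c _ => one_sub_pow_le _ (wt_nonneg J0 τ c) (wt_le_one J0 τ c) m
  have h2 : ∑ c : Clause n k, (1 - m * wt J0 τ c + m ^ 2 * wt J0 τ c ^ 2 / 2) =
      (Fintype.card (Clause n k) : ℝ) - m * ∑ c : Clause n k, wt J0 τ c +
        m ^ 2 / 2 * ∑ c : Clause n k, wt J0 τ c ^ 2 := by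
    rw [Finset.mul_sum, Finset.mul_sum, Finset.sum_add_distrib, Finset.sum_sub_distrib,
      Finset.sum_const, Finset.card_univ, nsmul_eq_mul, mul_one]
    congr 1
    refine Finset.sum_congr rfl fun c _ => ?_
    ring
  have h3 := sum_wt (n := n) (k := k) J0 τ
  have h4 := sum_wt_sq (n := n) (k := k) J0 τ
  have hC : (Fintype.card (Clause n k) : ℝ) = Fintype.card (Fin k ↪ Fin n) * 2 ^ k := by
    rw [Fintype.card_prod, Fintype.card_fun, Fintype.card_bool, Fintype.card_fin]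
    push_cast
    rfl
  set S := ∑ e : Fin k ↪ Fin n, ((1 : ℝ) / 2) ^ nfree τ e with hS
  set E : ℝ := (Fintype.card (Fin k ↪ Fin n) : ℝ) with hE
  have hE0 : 0 ≤ E := Nat.cast_nonneg _
  have hm : (0 : ℝ) ≤ m := Nat.cast_nonneg _
  have h5 : E - 2 ^ J0 * (a * E) ≤ ∑ c : Clause n k, wt J0 τ c := by
    have := mul_le_mul_of_nonneg_left ha (by positivity : (0 : ℝ) ≤ 2 ^ J0)
    linarith
  have h6 : ∑ c : Clause n k, wt J0 τ c ^ 2 ≤ a * E := h4.trans ha
  have h7 : (m : ℝ) * (E - 2 ^ J0 * (a * E)) ≤ m * ∑ c : Clause n k, wt J0 τ c :=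
    mul_le_mul_of_nonneg_left h5 hm
  have h8 : (m : ℝ) ^ 2 / 2 * ∑ c : Clause n k, wt J0 τ c ^ 2 ≤ m ^ 2 / 2 * (a * E) :=
    mul_le_mul_of_nonneg_left h6 (by positivity)
  have h9 : (m : ℝ) * E * ((2 ^ J0 + m / 2) * a) ≤ m * E * (1 / 8) :=
    mul_le_mul_of_nonneg_left h (mul_nonneg hm hE0)
  have h10 : ∑ c : Clause n k, (1 - wt J0 τ c) ^ m ≤
      (Fintype.card (Clause n k) : ℝ) - 7 / 8 * m * E := by
    refine h1.trans ?_
    rw [h2]
    nlinarith [h7, h8, h9]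
  refine h10.trans ?_
  have h11 : (Fintype.card (Clause n k) : ℝ) - 7 / 8 * m * E =
      Fintype.card (Clause n k) * (1 - 7 / 8 * m / 2 ^ k) := by
    rw [hC]
    field_simp
  rw [h11]
  refine mul_le_mul_of_nonneg_left ?_ (Nat.cast_nonneg _)
  have h12 := Real.add_one_le_exp (-(7 / 8 * m / 2 ^ k : ℝ))
  linarith

end Pool.Agent.KS
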