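import Pool.Agent.Lib.MP_f017c9_lc_BT.Bas
import Pool.Agent.Lib.MP_f017c9_lc_MY.Defs

/-!
# Random k-SAT: myopic search, the weight of a clause (definitions used in the proof)
-/

namespace Pool.Agent.KS

open Finset

variable {n k M : ℕ}

/-- the number of the positions with a free variable -/
def nfree (τ : PA n) (e : Fin k ↪ Fin n) : ℕ := #{i | τ (e i) = none}

open Classical in
/-- the probability that the clause is violated when its free literals are drawn at random,
truncated to the clauses with at least `J0` free variables -/
noncomputable def wt (J0 : ℕ) (τ : PA n) (c : Clause n k) : ℝ :=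
  if Unsat τ c ∧ J0 ≤ nfree τ c.1 then (1 / 2) ^ nfree τ c.1 else 0

/-- the restriction of an assignment -/
def restr (σ : Asg n) (W : Finset (Fin n)) : PA n := fun x => if x ∈ W then some (σ x) else none

/-- the conditional probability that `σ` satisfies the formula when only the variables in `W` and
the clauses in `Q` have been looked at -/
noncomputable def psi (F : Formula n k M) (W : Finset (Fin n)) (Q : Finset (Fin M)) (σ : Asg n) :
    ℝ := ∏ j ∈ Qᶜ, (1 - wt 0 (restr σ W) (F j))

/-- the node reached in `t` steps when the correction pattern is `J` -/
def jnode (rule : PA n → Lit n) (J : Asg n) : ℕ → PA n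
  | 0 => fun _ => none
  | t + 1 => if h : t < n then
      upd (jnode rule J t) (rule (jnode rule J t)).1 (xor (rule (jnode rule J t)).2 (J ⟨t, h⟩))
    else jnode rule J t

/-- the first `t` steps choose free variables -/
def okPath (rule : PA n → Lit n) (J : Asg n) (t : ℕ) : Prop :=
  ∀ s < t, jnode rule J s (rule (jnode rule J s)).1 = none

end Pool.Agent.KS
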